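import Mathlib

/-!
Involutions of a 2-group with an abelian automorphism group transitive on involutions commute.
-/

set_option autoImplicit false

namespace Pool.Agent.Lib.MP_5bec91_al

universe u

variable {G : Type u} [Group G]

lemma orderOf_eq_two_of {x : G} (h1 : x ≠ 1) (h2 : x * x = 1) : orderOf x = 2 := by
  have : Fact (Nat.Prime 2) := ⟨Nat.prime_two⟩
  exact orderOf_eq_prime (by rw [pow_two]; exact h2) h1

lemma sq_of_orderOf {x : G} (h : orderOf x = 2) : x * x = 1 := by
  have := pow_orderOf_eq_one x
  rwa [h, pow_two] at this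

lemma ne_one_of_orderOf {x : G} (h : orderOf x = 2) : x ≠ 1 := by
  rintro rfl
  simp at h

/-- The dihedral group of order 8 cannot occur. -/
lemma no_D8 (A : Subgroup (MulAut G)) (hc : ∀ a ∈ A, ∀ b ∈ A, a * b = b * a)
    (ht : ∀ x y : G, orderOf x = 2 → orderOf y = 2 → ∃ a ∈ A, a x = y)
    (t u : G) (h2t : orderOf t = 2) (h2u : orderOf u = 2)
    (h4 : (t * u) ^ 4 = 1) : (t * u) ^ 2 = 1 := by
  by_contra hne
  have tt := sq_of_orderOf h2t
  have uu := sq_of_orderOf h2u
  have tinv : t⁻¹ = t := inv_eq_of_mul_eq_one_right tt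
  have uinv : u⁻¹ = u := inv_eq_of_mul_eq_one_right uu
  set z : G := (t * u) ^ 2 with hz
  have zz : z * z = 1 := by rw [hz, ← pow_add]; exact h4
  have h2z : orderOf z = 2 := orderOf_eq_two_of hne zz
  have zinv : z⁻¹ = z := inv_eq_of_mul_eq_one_right zz
  have hz1 : z = t * u * t * u := by rw [hz, pow_two]; group
  have hz2 : z = u * t * u * t := by
    rw [← zinv, hz1]; simp only [mul_inv_rev, tinv, uinv]; group
  have ztc : Commute z t := by
    have e1 : z * t = t * u * t * u * t := by rw [hz1]
    have e2 : t * z = t * u * t * u * t := by rw [hz2]; group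
    exact e1.trans e2.symm
  have zuc : Commute z u := by
    have e1 : z * u = u * t * u * t * u := by rw [hz2]
    have e2 : u * z = u * t * u * t * u := by rw [hz1]; group
    exact e1.trans e2.symm
  have h2v : orderOf (t * u * t) = 2 := by
    apply orderOf_eq_two_of
    · intro h
      have : u = 1 := by
        have e : u = t * (t * u * t) * t := by
          calc u = (t * t) * u * (t * t) := by rw [tt]; group
            _ = t * (t * u * t) * t := by group
        rw [e, h, mul_one, tt]
      exact ne_one_of_orderOf h2u this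
    · calc t * u * t * (t * u * t) = t * u * (t * t) * u * t := by group
        _ = t * (u * u) * t := by rw [tt]; group
        _ = 1 := by rw [uu, mul_one, tt]
  obtain ⟨a, haA, ha⟩ := ht t u h2t h2u
  obtain ⟨b, hbA, hb⟩ := ht t z h2t h2z
  obtain ⟨c, hcA, hcc⟩ := ht t (t * u * t) h2t h2v
  have app : ∀ f ∈ A, ∀ g ∈ A, f (g t) = g (f t) := by
    intro f hf g hg
    have := congrArg (fun e : MulAut G => e t) (hc f hf g hg)
    simpa [MulAut.mul_apply] using this
  set w : G := b u with hw
  have haz : a z = w := by rw [← hb, app a haA b hbA, ha]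
  have hcz : c z = z * w * z := by
    rw [← hb, app c hcA b hbA, hcc, map_mul, map_mul]
  have wu : Commute w u := by
    have := ztc.map a
    rwa [haz, ha] at this
  have wv' : Commute (z * w * z) (t * u * t) := by
    have := ztc.map c
    rwa [hcz, hcc] at this
  have zv : Commute z (t * u * t) := (ztc.mul_right zuc).mul_right ztc
  have wv : Commute w (t * u * t) := by
    have e : w = z * (z * w * z) * z := by
      calc w = (z * z) * w * (z * z) := by rw [zz]; group
        _ = z * (z * w * z) * z := by group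
    rw [e]
    exact (zv.mul_left wv').mul_left zv
  have wz : Commute w z := by
    have e : z = u * (t * u * t) := by rw [hz2]; group
    rw [e]
    exact wu.mul_right wv
  have ut : u * t = t * u := by
    apply b.injective
    rw [map_mul, map_mul, hb]
    exact wz
  apply hne
  rw [hz1]
  calc t * u * t * u = t * (u * t) * u := by group
    _ = t * (t * u) * u := by rw [ut]
    _ = (t * t) * (u * u) := by group
    _ = 1 := by rw [tt, uu, mul_one]

theorem involutions_commute (h2 : ∀ g : G, ∃ n : ℕ, g ^ (2 ^ n) = 1)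
    (A : Subgroup (MulAut G)) (hc : ∀ a ∈ A, ∀ b ∈ A, a * b = b * a)
    (ht : ∀ x y : G, orderOf x = 2 → orderOf y = 2 → ∃ a ∈ A, a x = y)
    (s t : G) (hs : orderOf s = 2) (h2t : orderOf t = 2) : s * t = t * s := by
  have ss := sq_of_orderOf hs
  have tt := sq_of_orderOf h2t
  have sinv : s⁻¹ = s := inv_eq_of_mul_eq_one_right ss
  have tinv : t⁻¹ = t := inv_eq_of_mul_eq_one_right tt
  set r : G := s * t with hr
  have hinv : ∀ m : ℕ, s * r ^ m * s = (r ^ m)⁻¹ := by
    intro m
    have e : s * r * s⁻¹ = r⁻¹ := by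
      rw [hr, mul_inv_rev, sinv, tinv]
      calc s * (s * t) * s = (s * s) * t * s := by group
        _ = t * s := by rw [ss, one_mul]
    calc s * r ^ m * s = s * r ^ m * s⁻¹ := by rw [sinv]
      _ = (s * r * s⁻¹) ^ m := by rw [conj_pow]
      _ = (r ^ m)⁻¹ := by rw [e, inv_pow]
  -- descent: if r^(4m) = 1 then r^(2m) = 1
  have step : ∀ m : ℕ, (r ^ m) ^ 4 = 1 → (r ^ m) ^ 2 = 1 := by
    intro m h4
    by_cases hu : s * r ^ m = 1
    · have : r ^ m = s := by
        have := eq_inv_of_mul_eq_one_right hu
        rwa [sinv] at this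
      rw [this, pow_two, ss]
    · have hu2 : orderOf (s * r ^ m) = 2 := by
        apply orderOf_eq_two_of hu
        calc s * r ^ m * (s * r ^ m) = (s * r ^ m * s) * r ^ m := by group
          _ = 1 := by rw [hinv, inv_mul_cancel]
      have e : s * (s * r ^ m) = r ^ m := by rw [← mul_assoc, ss, one_mul]
      have := no_D8 A hc ht s (s * r ^ m) hs hu2 (by rw [e]; exact h4)
      rwa [e] at this
  have desc : ∀ n : ℕ, r ^ (2 ^ (n + 1)) = 1 → r ^ 2 = 1 := by
    intro n
    induction n with
    | zero => intro h; simpa using h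
    | succ n ih =>
      intro h
      apply ih
      have := step (2 ^ n) (by rw [← pow_mul, ← h]; congr 1; ring)
      rw [← pow_mul] at this
      rw [← this]; congr 1
  obtain ⟨n, hn⟩ := h2 r
  have h1 : r ^ 2 = 1 := desc n (by rw [pow_succ, pow_mul, hn, one_pow])
  have h3 : r⁻¹ = r := inv_eq_of_mul_eq_one_right (by rw [← pow_two]; exact h1)
  rw [← h3, hr, mul_inv_rev, sinv, tinv]

end Pool.Agent.Lib.MP_5bec91_al
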