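import Mathlib

-- part Pool.Agent.Lib.MP_5bec91_al.Three
section

/-!
A 2-group with commuting involutions and a fixed-point-free automorphism of order three is a
2-Engel group, hence locally finite and nilpotent of class at most two.
-/

set_option autoImplicit false

namespace Pool.Agent.Lib.MP_5bec91_al

universe u

variable {G : Type u} [Group G]

lemma cube_root (h2 : ∀ g : G, ∃ n : ℕ, g ^ (2 ^ n) = 1) (y : G) : ∃ m : ℕ, (y ^ 3) ^ m = y := by
  obtain ⟨n, hn⟩ := h2 y
  apply exists_pow_eq_self_of_coprime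
  exact Nat.Coprime.coprime_dvd_right (orderOf_dvd_of_pow_eq_one hn)
    (Nat.Coprime.pow_right n (by norm_num))

lemma exists_inv_pow (h2 : ∀ g : G, ∃ n : ℕ, g ^ (2 ^ n) = 1) {g : G} (hg : g ≠ 1) :
    ∃ k : ℕ, g ^ k ≠ 1 ∧ g ^ k * g ^ k = 1 := by
  obtain ⟨n, hn⟩ := h2 g
  induction n with
  | zero => exact absurd (by simpa using hn) hg
  | succ n ih =>
    by_cases h : g ^ (2 ^ n) = 1
    · exact ih h
    · exact ⟨2 ^ n, h, by rw [← pow_add, ← hn]; congr 1; ring⟩

section

variable (h2 : ∀ g : G, ∃ n : ℕ, g ^ (2 ^ n) = 1)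
  (hc : ∀ s t : G, s * s = 1 → t * t = 1 → s * t = t * s)
  (a : MulAut G) (h3 : ∀ g, a (a (a g)) = g) (hf : ∀ g, a g = g → g = 1)

include hc h3 hf in
/-- the automorphism acts quadratically on the involutions -/
lemma quad {p : G} (hp : p * p = 1) : p * a p * a (a p) = 1 := by
  have h1 : a p * a p = 1 := by rw [← map_mul, hp, map_one]
  have h2 : a (a p) * a (a p) = 1 := by rw [← map_mul, h1, map_one]
  apply hf
  rw [map_mul, map_mul, h3, mul_assoc, hc _ _ h2 hp, ← mul_assoc, hc _ _ h1 hp]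

include h2 h3 in
/-- a non-split element fixes an involution -/
lemma exists_fixed {g : G} (hg : g * a g * a (a g) ≠ 1) :
    ∃ v : G, v ≠ 1 ∧ v * v = 1 ∧ g * a v * g⁻¹ = v := by
  obtain ⟨k, hk1, hk2⟩ := exists_inv_pow h2 hg
  refine ⟨_, hk1, hk2, ?_⟩
  rw [map_pow, ← conj_pow, map_mul, map_mul, h3]
  congr 1
  group

include h2 hc h3 hf in
lemma no_fixed (x v : G) (hv : v * v = 1)
    (h : (x⁻¹ * a x)⁻¹ * a v * (x⁻¹ * a x)⁻¹⁻¹ = v) : v = 1 := by
  set y := x⁻¹ * a x with hy
  have hq : a v = y * v * y⁻¹ := by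
    calc a v = y * (y⁻¹ * a v * y⁻¹⁻¹) * y⁻¹ := by group
      _ = y * v * y⁻¹ := by rw [h]
  have conj2 : ∀ g : G, (g * v * g⁻¹) * (g * v * g⁻¹) = 1 := fun g => by
    calc (g * v * g⁻¹) * (g * v * g⁻¹) = g * (v * v) * g⁻¹ := by group
      _ = 1 := by rw [hv]; group
  have vi : v⁻¹ = v := inv_eq_of_mul_eq_one_right hv
  -- a² v = v * a v
  have e1 : a (a v) = (a v) * v := by
    have := quad hc a h3 hf hv
    have h4 : (a v)⁻¹ = a v := inv_eq_of_mul_eq_one_right (by rw [← map_mul, hv, map_one])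
    calc a (a v) = (v * a v)⁻¹ := (eq_inv_of_mul_eq_one_right this)
      _ = a v * v := by rw [mul_inv_rev, vi, h4]
  have e2 := quad hc a h3 hf (conj2 (a x))
  simp only [map_mul, map_inv, h3] at e2
  have e3 : a (a x) * a v * (a (a x))⁻¹ = a x * a (a v) * (a x)⁻¹ := by
    have : a (a v) = (a x)⁻¹ * a (a x) * a v * ((a x)⁻¹ * a (a x))⁻¹ := by
      conv_lhs => rw [hq]
      simp only [hy, map_mul, map_inv]
    rw [this]; group
  rw [e3, e1, hq] at e2
  have hax : a x = x * y := by rw [hy]; group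
  rw [hax] at e2
  -- e4 : v₁ v₀ ... relation
  have e4 : v * (y * v * y⁻¹) * v * v * (y⁻¹ * v * y) = 1 := by
    have : v * (y * v * y⁻¹) * v * v * (y⁻¹ * v * y) = (x * y)⁻¹ * (x * y * v * (x * y)⁻¹ *
      (x * y * (y * v * y⁻¹ * v) * (x * y)⁻¹) * (x * (y * v * y⁻¹ * v) * x⁻¹)) * (x * y) := by
      group
    rw [this, e2]; group
  have e5 : v * (y * v * y⁻¹) * (y⁻¹ * v * y) = 1 := by
    rw [← e4, mul_assoc (v * (y * v * y⁻¹)) v v, hv, mul_one]
  have e6 : (y * v * y⁻¹) * (y * y * v * (y * y)⁻¹) * v = 1 := by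
    calc (y * v * y⁻¹) * (y * y * v * (y * y)⁻¹) * v
        = y * (v * (y * v * y⁻¹) * (y⁻¹ * v * y)) * y⁻¹ := by group
      _ = 1 := by rw [e5]; group
  have e7 : y * y * v * (y * y)⁻¹ = y⁻¹ * v * y := by
    have h5 : v * (y * v * y⁻¹) * (y * y * v * (y * y)⁻¹) = 1 := by
      calc v * (y * v * y⁻¹) * (y * y * v * (y * y)⁻¹)
          = v * ((y * v * y⁻¹) * (y * y * v * (y * y)⁻¹) * v) * v⁻¹ := by group
        _ = 1 := by rw [e6]; group
    exact mul_left_cancel (h5.trans e5.symm)
  have e8 : Commute (y ^ 3) v := by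
    have : y ^ 3 * v = y * (y * y * v * (y * y)⁻¹) * y * y := by rw [pow_succ, pow_two]; group
    change y ^ 3 * v = v * y ^ 3
    rw [this, e7, pow_succ, pow_two]; group
  obtain ⟨m, hm⟩ := cube_root h2 y
  have e9 : Commute y v := by rw [← hm]; exact e8.pow_left m
  have e10 : y * v * y⁻¹ = v := by rw [e9.eq]; group
  have e11 : y⁻¹ * v * y = v := by rw [mul_assoc, ← e9.eq]; group
  rw [e10, e11, hv, one_mul] at e5
  exact e5

include h2 hc h3 hf in
/-- the automorphism is splitting -/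
lemma split (x : G) : x * a x * a (a x) = 1 := by
  set y := x⁻¹ * a x with hy
  have s1 : y * a y * a (a y) = 1 := by
    simp only [hy, map_mul, map_inv, h3]; group
  have s2 : y⁻¹ * a y⁻¹ * a (a y⁻¹) = 1 := by
    by_contra hne
    obtain ⟨v, hv1, hv2, hv3⟩ := exists_fixed h2 a h3 hne
    exact hv1 (no_fixed h2 hc a h3 hf x v hv2 hv3)
  simp only [map_inv] at s2
  have e1 : a (a y) = (y * a y)⁻¹ := eq_inv_of_mul_eq_one_right s1
  have c1 : Commute y (a y) := by
    rw [e1, inv_inv] at s2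
    change y * a y = a y * y
    calc y * a y = a y * y * (y⁻¹ * (a y)⁻¹ * (y * a y)) := by group
      _ = a y * y := by rw [s2, mul_one]
  obtain ⟨m, hm⟩ := cube_root h2 y
  -- k = (a² y * y⁻¹) ^ m satisfies k⁻¹ * a k = y
  set z := a (a y) * y⁻¹ with hz
  have c2 : Commute y (a (a y)) := by rw [e1]; exact ((Commute.refl y).mul_right c1).inv_right
  have c3 : Commute (a y) (a (a y)) := by rw [e1]; exact (c1.symm.mul_right (Commute.refl _)).inv_right
  have az : a z = y * (a y)⁻¹ := by simp only [hz, map_mul, map_inv, h3]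
  have aaz : a (a z) = a y * (a (a y))⁻¹ := by simp only [az, map_mul, map_inv]
  have cz1 : Commute z (a z) := by
    rw [az, hz]
    exact ((c2.symm.mul_right c3.symm.inv_right).mul_left
      ((Commute.refl y).inv_left.mul_right c1.inv_inv))
  have cz2 : Commute z (a (a z)) := by
    rw [aaz, hz]
    exact ((c3.symm.mul_right (Commute.refl _).inv_right).mul_left
      (c1.inv_left.mul_right c2.inv_inv))
  have cz3 : Commute (a z) (a (a z)) := cz1.map a
  have z3 : z⁻¹ * a z = y ^ 3 := by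
    rw [az, hz, e1, pow_succ, pow_two]
    calc ((y * a y)⁻¹ * y⁻¹)⁻¹ * (y * (a y)⁻¹) = y * y * (a y * y) * (a y)⁻¹ := by
          simp only [mul_inv_rev, inv_inv, mul_assoc]
      _ = y * y * y := by rw [← c1.eq]; group
  have zs : z * a z * a (a z) = 1 := by
    rw [aaz, az, hz]; group
  have hk : (z ^ m)⁻¹ * a (z ^ m) = y := by
    rw [map_pow, ← inv_pow, ← (cz1.inv_left).mul_pow, z3, hm]
  have hx : x = z ^ m := by
    have : x * (z ^ m)⁻¹ = 1 := by
      apply hf
      have h1 : a x = x * y := by rw [hy]; group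
      have h4 : a (z ^ m) = z ^ m * y := by rw [← hk]; group
      rw [map_mul, map_inv, h1, h4]; group
    exact mul_inv_eq_one.1 this
  rw [hx, map_pow, map_pow, ← cz1.mul_pow, ← (cz2.mul_left cz3).mul_pow, zs, one_pow]

end

/-- A splitting automorphism of order three forces every element to commute with its
conjugates. -/
lemma engel_of_split (a : MulAut G) (hs : ∀ x, x * a x * a (a x) = 1) (x g : G) :
    Commute x (g * x * g⁻¹) := by
  have h3 : ∀ x, a (a (a x)) = x := fun x => by
    have h1 := hs (a x)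
    have h0 := hs x
    have : x * (a x * a (a x) * a (a (a x))) = x := by rw [h1, mul_one]
    rw [← mul_assoc, ← mul_assoc, h0, one_mul] at this
    exact this
  -- every element commutes with all conjugates of its image
  have key : ∀ x g : G, Commute x (g * a x * g⁻¹) := by
    intro x g
    have e1 := hs (x * g)
    have e2 := hs (x⁻¹ * g)
    have e3 := hs g
    simp only [map_mul, map_inv] at e1 e2
    have e4 : a (a g) = (g * a g)⁻¹ := eq_inv_of_mul_eq_one_right e3
    rw [e4] at e1 e2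
    have f1 : x * (g * a x * g⁻¹) = ((g * a g) * a (a x) * (g * a g)⁻¹)⁻¹ := by
      apply eq_inv_of_mul_eq_one_left
      rw [← e1]; group
    have f2 : x⁻¹ * (g * a x * g⁻¹)⁻¹ = (g * a g) * a (a x) * (g * a g)⁻¹ := by
      have : x⁻¹ * (g * a x * g⁻¹)⁻¹ * ((g * a g) * a (a x) * (g * a g)⁻¹)⁻¹ = 1 := by
        rw [← e2]; group
      exact mul_inv_eq_one.1 this
    change x * (g * a x * g⁻¹) = (g * a x * g⁻¹) * x
    rw [f1, ← f2]; group
  have k1 : Commute x (g * a x * g⁻¹) := key x g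
  have k2 : Commute x (g * a (a x) * g⁻¹) := by
    have := key (a (a x)) g⁻¹
    rw [h3] at this
    have h := this.symm.map (MulAut.conj g)
    simpa [MulAut.conj_apply, mul_assoc] using h
  have e : g * x * g⁻¹ = ((g * a x * g⁻¹) * (g * a (a x) * g⁻¹))⁻¹ := by
    apply eq_inv_of_mul_eq_one_left
    calc g * x * g⁻¹ * ((g * a x * g⁻¹) * (g * a (a x) * g⁻¹))
        = g * (x * a x * a (a x)) * g⁻¹ := by group
      _ = 1 := by rw [hs]; group
  rw [e]
  exact (k1.mul_right k2).inv_right

open scoped IsMulCommutative in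
lemma finite_closure_of_comm (ht : ∀ x : G, IsOfFinOrder x) {S : Set G} (hS : S.Finite)
    (hcomm : ∀ x ∈ S, ∀ y ∈ S, x * y = y * x) : Finite (Subgroup.closure S) := by
  have := Subgroup.isMulCommutative_closure hcomm
  have : Group.FG (Subgroup.closure S) := (Group.fg_iff_subgroup_fg _).2
    ((Subgroup.fg_iff _).2 ⟨S, rfl, hS⟩)
  exact CommGroup.finite_of_fg_isMulTorsion _ fun x =>
    (Subgroup.subtype_injective _).isOfFinOrder_iff.1 (ht x)

/-- A periodic group in which every element commutes with its conjugates is locally finite. -/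
lemma locally_finite_of_engel (ht : ∀ x : G, IsOfFinOrder x)
    (he : ∀ x g : G, Commute x (g * x * g⁻¹)) (S : Finset G) :
    Finite (Subgroup.closure (S : Set G)) := by
  classical
  induction S using Finset.induction_on with
  | empty => rw [Finset.coe_empty, Subgroup.closure_empty]; infer_instance
  | insert x S _ ih =>
    set K := Subgroup.closure (S : Set G) with hK
    set T : Set G := (fun k : G => k * x * k⁻¹) '' (K : Set G) with hT
    have hKf : (K : Set G).Finite := Set.toFinite _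
    have hTf : T.Finite := hKf.image _
    have hM : Finite (Subgroup.closure T) := finite_closure_of_comm ht hTf (by
      rintro _ ⟨k, -, rfl⟩ _ ⟨l, -, rfl⟩
      have := he (k * x * k⁻¹) (l * k⁻¹)
      rw [show l * k⁻¹ * (k * x * k⁻¹) * (l * k⁻¹)⁻¹ = l * x * l⁻¹ by group] at this
      exact this.eq)
    have hN : K ≤ Subgroup.normalizer (Subgroup.closure T : Set G) := by
      rw [Subgroup.le_normalizer_closure_iff]
      rintro h hh _ ⟨k, hk, rfl⟩
      exact Subgroup.subset_closure ⟨h * k, K.mul_mem hh hk, by group⟩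
    have hsup : ((K ⊔ Subgroup.closure T : Subgroup G) : Set G).Finite := by
      rw [Subgroup.coe_mul_of_left_le_normalizer_right _ _ hN]
      exact hKf.mul (Set.toFinite _)
    have hle : Subgroup.closure ((insert x S : Finset G) : Set G) ≤ K ⊔ Subgroup.closure T := by
      rw [Subgroup.closure_le, Finset.coe_insert]
      rintro y (rfl | hy)
      · exact Subgroup.mem_sup_right (Subgroup.subset_closure ⟨1, K.one_mem, by group⟩)
      · exact Subgroup.mem_sup_left (Subgroup.subset_closure hy)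
    exact (hsup.subset hle).to_subtype

end Pool.Agent.Lib.MP_5bec91_al
end

-- part Pool.Agent.Lib.MP_5bec91_al.Levi
section

/-!
In a group where every element commutes with its conjugates, triple commutators have cube one.
-/

set_option autoImplicit false

namespace Pool.Agent.Lib.MP_5bec91_al

universe u

open scoped commutatorElement

lemma ring_anti {R : Type*} [Ring R] (m n : R) (hm : m * m = 0) (hn : n * n = 0)
    (h : (m + n + m * n) * (m + n + m * n) = 0) :
    m * n + n * m = 0 ∧ m * n * m = 0 ∧ n * m * n = 0 := by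
  have hm' : ∀ t, m * (m * t) = 0 := fun t => by rw [← mul_assoc, hm, zero_mul]
  have hn' : ∀ t, n * (n * t) = 0 := fun t => by rw [← mul_assoc, hn, zero_mul]
  have h1 : m * n + n * m + n * m * n + m * n * m + m * n * m * n = 0 := by
    rw [← h]
    simp only [mul_add, add_mul, mul_assoc, hm, hn, hm', mul_zero]
    abel
  have h2 : m * n * m = 0 := by
    have := congrArg (fun t => m * t * (1 - n)) h1
    simpa only [mul_add, add_mul, mul_sub, sub_mul, mul_assoc, hm, hn, hm', hn', mul_zero,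
      mul_one, zero_add, add_zero, sub_zero, zero_mul, add_sub_cancel_right, sub_self] using this
  have h3 : n * m * n = 0 := by
    have := congrArg (fun t => (1 - m) * t * n) h1
    simpa only [mul_add, add_mul, mul_sub, sub_mul, mul_assoc, hm, hn, hm', hn', mul_zero,
      mul_one, one_mul, zero_add, add_zero, sub_zero, zero_mul, sub_add_cancel, sub_self] using this
  rw [h2, h3, zero_mul] at h1
  exact ⟨by simpa using h1, h2, h3⟩

lemma ring_main {R : Type*} [Ring R] (u v u' v' : R) (hu : (u - 1) * (u - 1) = 0)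
    (hv : (v - 1) * (v - 1) = 0) (huv : (u * v - 1) * (u * v - 1) = 0) (hu' : u' * u = 1)
    (hv' : v' * v = 1) : (u - 1) * (v - 1) + (v - 1) * (u - 1) = 0 ∧
      u * v * u' * v' - 1 = (u - 1) * (v - 1) + (u - 1) * (v - 1) := by
  obtain ⟨m, rfl⟩ : ∃ m, u = 1 + m := ⟨u - 1, by abel⟩
  obtain ⟨n, rfl⟩ : ∃ n, v = 1 + n := ⟨v - 1, by abel⟩
  rw [add_sub_cancel_left] at hu hv
  have inv : ∀ w k : R, k * k = 0 → w * (1 + k) = 1 → w = 1 - k := fun w k h1 h2 => by
    calc w = w * (1 - k * k) := by rw [h1, sub_zero, mul_one]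
      _ = w * (1 + k) * (1 - k) := by noncomm_ring
      _ = 1 - k := by rw [h2, one_mul]
  obtain rfl := inv _ _ hu hu'
  obtain rfl := inv _ _ hv hv'
  rw [show (1 + m) * (1 + n) - 1 = m + n + m * n by noncomm_ring] at huv
  obtain ⟨r1, r2, r3⟩ := ring_anti m n hu hv huv
  simp only [add_sub_cancel_left]
  refine ⟨r1, ?_⟩
  calc (1 + m) * (1 + n) * (1 - m) * (1 - n) - 1
      = m * n + m * n - (m * n + n * m) - m * m - n * n - m * n * m + m * m * n + n * m * n
        - m * (n * n) + m * n * m * n := by noncomm_ring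
    _ = m * n + m * n := by rw [r1, r2, r3, hu, hv]; simp

variable {G : Type u} [Group G]

lemma engel_comm (he : ∀ x g : G, Commute x (g * x * g⁻¹)) (g p : G) : ⁅g, ⁅g, p⁆⁆ = 1 := by
  rw [commutatorElement_eq_one_iff_commute, commutatorElement_def,
    show g * p * g⁻¹ * p⁻¹ = g * (p * g * p⁻¹)⁻¹ by group]
  exact (Commute.refl g).mul_right (he g p).inv_right

open scoped IsMulCommutative in
lemma engel_aux (he : ∀ x g : G, Commute x (g * x * g⁻¹)) (x y z : G) :
    ⁅y, ⁅z, x⁆⁆ * ⁅z, ⁅y, x⁆⁆ = 1 ∧ ⁅⁅y, z⁆, x⁆ = ⁅y, ⁅z, x⁆⁆ * ⁅y, ⁅z, x⁆⁆ ∧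
      ⁅y, ⁅z, x⁆⁆ * ⁅y, ⁅x, z⁆⁆ = 1 := by
  let N := Subgroup.normalClosure ({x} : Set G)
  have : IsMulCommutative N := Subgroup.isMulCommutative_closure (by
    intro p hp q hq
    obtain ⟨p', hp1, hp2⟩ := Group.mem_conjugatesOfSet_iff.1 hp
    obtain ⟨q', hq1, hq2⟩ := Group.mem_conjugatesOfSet_iff.1 hq
    rw [Set.mem_singleton_iff] at hp1 hq1
    rw [hp1] at hp2
    rw [hq1] at hq2
    obtain ⟨c, rfl⟩ := isConj_iff.1 (hp2.symm.trans hq2)
    exact (he p c).eq)
  let ρ : G → AddMonoid.End (Additive N) := fun g =>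
    MonoidHom.toAdditive (MulAut.conjNormal (H := N) g).toMonoidHom
  have val : ∀ g (p : Additive N), (((ρ g - 1) p).toMul : G) = ⁅g, (p.toMul : G)⁆ := by
    intro g p
    change (((ρ g p - p).toMul : N) : G) = _
    rw [toMul_sub, div_eq_mul_inv, commutatorElement_def]
    rfl
  have sq : ∀ g, (ρ g - 1) * (ρ g - 1) = 0 := by
    intro g
    ext p
    change (((ρ g - 1) ((ρ g - 1) p)).toMul : G) = 1
    rw [val, val, engel_comm he]
  have mul : ∀ g h, ρ (g * h) = ρ g * ρ h := by
    intro g h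
    ext p
    simp only [ρ, map_mul]
    rfl
  have one : ρ 1 = 1 := by
    ext p
    simp only [ρ, map_one]
    rfl
  obtain ⟨r1, e⟩ := ring_main (ρ y) (ρ z) (ρ y⁻¹) (ρ z⁻¹) (sq y) (sq z) (mul y z ▸ sq (y * z))
    (by rw [← mul, inv_mul_cancel, one]) (by rw [← mul, inv_mul_cancel, one])
  rw [← mul, ← mul, ← mul, ← commutatorElement_def] at e
  let p : Additive N := Additive.ofMul ⟨x, Subgroup.subset_normalClosure rfl⟩
  have hp : (p.toMul : G) = x := rfl
  refine ⟨?_, ?_, ?_⟩
  · have := congrArg (fun f : AddMonoid.End (Additive N) => ((f p).toMul : G)) r1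
    change ((((ρ y - 1) ((ρ z - 1) p) + (ρ z - 1) ((ρ y - 1) p)).toMul : N) : G) = 1 at this
    rwa [toMul_add, Subgroup.coe_mul, val, val, val, val, hp] at this
  · have := congrArg (fun f : AddMonoid.End (Additive N) => ((f p).toMul : G)) e
    change (((ρ ⁅y, z⁆ - 1) p).toMul : G) =
      ((((ρ y - 1) ((ρ z - 1) p) + (ρ y - 1) ((ρ z - 1) p)).toMul : N) : G) at this
    rwa [toMul_add, Subgroup.coe_mul, val, val, val, hp] at this
  · have e : (ρ y - 1) ((ρ z - 1) p) + (ρ y - 1) (-(ρ z - 1) p) = 0 := by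
      rw [map_neg, add_neg_cancel]
    have := congrArg (fun q : Additive N => (q.toMul : G)) e
    simp only [toMul_add, Subgroup.coe_mul, val, toMul_neg, Subgroup.coe_inv, hp,
      commutatorElement_inv] at this
    exact this

/-- Levi: triple commutators in a 2-Engel group have cube one. -/
lemma triple_cube (he : ∀ x g : G, Commute x (g * x * g⁻¹)) (x y z : G) :
    ⁅x, ⁅y, z⁆⁆ ^ 3 = 1 := by
  have cyc : ∀ x y z : G, ⁅y, ⁅z, x⁆⁆ = ⁅z, ⁅x, y⁆⁆ := fun x y z =>
    (eq_inv_of_mul_eq_one_left (engel_aux he x y z).1).trans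
      (eq_inv_of_mul_eq_one_right (engel_aux he x z y).2.2).symm
  have h := (engel_aux he x y z).2.1
  rw [cyc x y z, cyc y z x, ← commutatorElement_inv x] at h
  rw [pow_succ, pow_two, ← h, inv_mul_cancel]

end Pool.Agent.Lib.MP_5bec91_al
end
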